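import Pool.Agent.D0H61.AB.Stm
import Pool.Agent.Erdos456.Mertens

/-!
# AB, module MER: the sum of `1 / (p log p)` over the primes above `z`

Author: helper52 (statement and paper proof: helper61, see `Pool/Agent/D0H61/AB/Stm.lean`).
-/

set_option autoImplicit false

namespace Pool.Agent.D0H52.AB

open Finset Pool.Agent.D0H61.AB Pool.Agent.Erdos456.Mert

/-- partial summation -/
theorem part {C : ℝ} (hC : ∀ N : ℕ, 1 ≤ N → |∑ p ∈ PP N, Real.log p / p - Real.log N| ≤ C)
    (N : ℕ) (hN : 2 ≤ N) (k : ℕ) :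
    ∑ p ∈ PP (N + k), 1 / ((p : ℝ) * Real.log p) - ∑ p ∈ PP N, 1 / ((p : ℝ) * Real.log p) ≤
      ((∑ p ∈ PP (N + k), Real.log p / p - ∑ p ∈ PP N, Real.log p / p) -
        (Real.log (N + k : ℕ) - Real.log N + 2 * C)) / Real.log (N + k : ℕ) ^ 2 +
      (2 * C / Real.log N ^ 2 + 1 / Real.log N - 1 / Real.log (N + k : ℕ)) := by
  induction k with
  | zero =>
    simp only [add_zero, sub_self]
    have : (0 - (0 + 2 * C)) / Real.log (N : ℝ) ^ 2 + (2 * C / Real.log (N : ℝ) ^ 2 +
        1 / Real.log (N : ℝ) - 1 / Real.log (N : ℝ)) = 0 := by ring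
    linarith
  | succ k ih =>
    set m : ℕ := N + k with hm
    have hm2 : 2 ≤ m := by omega
    have e1 : N + (k + 1) = m + 1 := by omega
    rw [e1, sum_PP_succ (fun p => 1 / ((p : ℝ) * Real.log p)),
      sum_PP_succ (fun p => Real.log p / (p : ℝ))]
    have hmr : (2 : ℝ) ≤ (m : ℝ) := by exact_mod_cast hm2
    have hl : 0 < Real.log (m : ℝ) := Real.log_pos (by linarith)
    have hl1 : Real.log (m : ℝ) ≤ Real.log ((m + 1 : ℕ) : ℝ) := by
      refine Real.log_le_log (by linarith) ?_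
      push_cast
      linarith
    set x : ℝ := Real.log (m : ℝ) with hx
    set y : ℝ := Real.log ((m + 1 : ℕ) : ℝ) with hy
    have hy0 : 0 < y := lt_of_lt_of_le hl hl1
    -- the term
    have hterm : (if (m + 1).Prime then 1 / (((m + 1 : ℕ) : ℝ) * Real.log ((m + 1 : ℕ) : ℝ)) else 0) =
        (if (m + 1).Prime then Real.log ((m + 1 : ℕ) : ℝ) / ((m + 1 : ℕ) : ℝ) else 0) / y ^ 2 := by
      have h0 : ((m + 1 : ℕ) : ℝ) ≠ 0 := by positivity
      split_ifs
      · rw [← hy]
        field_simp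
      · simp
    rw [hterm]
    set t : ℝ := (if (m + 1).Prime then Real.log ((m + 1 : ℕ) : ℝ) / ((m + 1 : ℕ) : ℝ) else 0) with ht
    set A : ℝ := ∑ p ∈ PP m, Real.log p / (p : ℝ) with hA
    set A0 : ℝ := ∑ p ∈ PP N, Real.log p / (p : ℝ) with hA0
    set U : ℝ := ∑ p ∈ PP m, 1 / ((p : ℝ) * Real.log p) with hU
    set U0 : ℝ := ∑ p ∈ PP N, 1 / ((p : ℝ) * Real.log p) with hU0
    set l0 : ℝ := Real.log (N : ℝ) with hl0
    have hD : (A - A0) - (x - l0 + 2 * C) ≤ 0 := by
      have h1 := abs_le.1 (hC m (by omega))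
      have h2 := abs_le.1 (hC N (by omega))
      linarith [h1.2, h2.1]
    -- comparison of the weights
    have hw : ((A - A0) - (x - l0 + 2 * C)) / x ^ 2 ≤ ((A - A0) - (x - l0 + 2 * C)) / y ^ 2 := by
      have h3 : 1 / y ^ 2 ≤ 1 / x ^ 2 := by
        apply one_div_le_one_div_of_le (by positivity)
        exact pow_le_pow_left₀ hl.le hl1 2
      have h4 := mul_le_mul_of_nonpos_left h3 hD
      rw [mul_one_div, mul_one_div] at h4
      exact h4
    have hst : (y - x) / y ^ 2 ≤ 1 / x - 1 / y := by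
      rw [div_sub_div _ _ hl.ne' hy0.ne', div_le_div_iff₀ (by positivity) (by positivity)]
      nlinarith [mul_nonneg (sub_nonneg.2 hl1) (mul_nonneg hy0.le (sub_nonneg.2 hl1))]
    have h5 : ((A + t - A0) - (y - l0 + 2 * C)) / y ^ 2 =
        ((A - A0) - (x - l0 + 2 * C)) / y ^ 2 + t / y ^ 2 - (y - x) / y ^ 2 := by
      ring
    rw [h5]
    linarith

theorem t_MER : S_MER := by
  intro ε hε
  obtain ⟨C, hC⟩ := mertens_log
  have hC0 : 0 ≤ C := (abs_nonneg _).trans (hC 1 le_rfl)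
  refine ⟨Real.exp (2 + (1 + 4 * C) / ε) , ?_, ?_⟩
  · have h1 : (0 : ℝ) ≤ (1 + 4 * C) / ε := by positivity
    have h2 := Real.add_one_le_exp (2 + (1 + 4 * C) / ε)
    linarith
  · intro z hz P hP
    have h1 : (0 : ℝ) ≤ (1 + 4 * C) / ε := by positivity
    have hz3 : 3 ≤ z := by
      have h2 := Real.add_one_le_exp (2 + (1 + 4 * C) / ε)
      linarith
    have hlz : 2 + (1 + 4 * C) / ε ≤ Real.log z := (Real.le_log_iff_exp_le (by linarith)).2 hz
    set N : ℕ := ⌊z⌋₊ with hN
    have hN2 : 2 ≤ N := Nat.le_floor (by norm_num; linarith)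
    have hNz : z < N + 1 := Nat.lt_floor_add_one z
    have hN2r : (2 : ℝ) ≤ N := by exact_mod_cast hN2
    -- the sum over `P` is at most the sum over an interval
    obtain ⟨k, hk⟩ : ∃ k : ℕ, ∀ p ∈ P, p ≤ N + k :=
      ⟨P.sup id, fun p hp => (Finset.le_sup (f := id) hp).trans (Nat.le_add_left _ _)⟩
    have hsub : P ⊆ PP (N + k) \ PP N := by
      intro p hp
      rw [mem_sdiff]
      have hpp := (hP p hp).1
      have hpz := (hP p hp).2
      refine ⟨mem_filter.2 ⟨mem_Icc.2 ⟨hpp.one_lt.le, hk p hp⟩, hpp⟩, fun h => ?_⟩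
      have h3 := (mem_Icc.1 (mem_filter.1 h).1).2
      have h4 : (p : ℝ) ≤ z := (Nat.cast_le.2 h3).trans (Nat.floor_le (by linarith))
      linarith
    have hsub2 : PP N ⊆ PP (N + k) := by
      intro p hp
      rw [mem_filter, mem_Icc] at hp ⊢
      exact ⟨⟨hp.1.1, by omega⟩, hp.2⟩
    have h6 : ∑ p ∈ P, 1 / ((p : ℝ) * Real.log p) ≤
        ∑ p ∈ PP (N + k), 1 / ((p : ℝ) * Real.log p) - ∑ p ∈ PP N, 1 / ((p : ℝ) * Real.log p) := by
      have h7 := sum_sdiff (f := fun p : ℕ => 1 / ((p : ℝ) * Real.log p)) hsub2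
      have h8 : ∑ p ∈ P, 1 / ((p : ℝ) * Real.log p) ≤
          ∑ p ∈ PP (N + k) \ PP N, 1 / ((p : ℝ) * Real.log p) := by
        refine sum_le_sum_of_subset_of_nonneg hsub (fun p _ _ => ?_)
        exact div_nonneg zero_le_one (mul_nonneg (Nat.cast_nonneg _) (Real.log_natCast_nonneg _))
      linarith
    have h9 := part hC N hN2 k
    have hl0 : 0 < Real.log (N : ℝ) := Real.log_pos (by linarith)
    have hlk : 0 < Real.log ((N + k : ℕ) : ℝ) := by
      apply Real.log_pos
      push_cast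
      have : (0 : ℝ) ≤ k := Nat.cast_nonneg _
      linarith
    have h10 : ((∑ p ∈ PP (N + k), Real.log p / p - ∑ p ∈ PP N, Real.log p / p) -
        (Real.log (N + k : ℕ) - Real.log N + 2 * C)) / Real.log (N + k : ℕ) ^ 2 ≤ 0 := by
      refine div_nonpos_of_nonpos_of_nonneg ?_ (by positivity)
      have h11 := abs_le.1 (hC (N + k) (by omega))
      have h12 := abs_le.1 (hC N (by omega))
      linarith [h11.2, h12.1]
    have h13 : 0 < 1 / Real.log ((N + k : ℕ) : ℝ) := by positivity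
    have h14 : ∑ p ∈ P, 1 / ((p : ℝ) * Real.log p) ≤
        2 * C / Real.log (N : ℝ) ^ 2 + 1 / Real.log (N : ℝ) := by linarith
    refine h14.trans ?_
    -- `log N ≥ log z - 1`
    set l : ℝ := Real.log z with hl
    have h15 : l - 1 ≤ Real.log (N : ℝ) := by
      have h16 : z ≤ Real.exp 1 * N := by
        have h17 : (2 : ℝ) ≤ Real.exp 1 := by
          have := Real.add_one_le_exp (1 : ℝ)
          linarith
        have h18 : 2 * (N : ℝ) ≤ Real.exp 1 * N :=
          mul_le_mul_of_nonneg_right h17 (by linarith)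
        linarith
      have h19 := Real.log_le_log (by linarith) h16
      rw [Real.log_mul (Real.exp_pos _).ne' (by linarith), Real.log_exp] at h19
      linarith
    have hl2 : 2 ≤ l := by linarith
    have hd : 0 < l - 1 := by linarith
    have h20 : 2 * C / Real.log (N : ℝ) ^ 2 ≤ 2 * C / (l - 1) ^ 2 := by
      apply div_le_div_of_nonneg_left (by positivity) (by positivity)
      exact pow_le_pow_left₀ hd.le h15 2
    have h21 : 1 / Real.log (N : ℝ) ≤ 1 / (l - 1) := one_div_le_one_div_of_le hd h15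
    refine (add_le_add h20 h21).trans ?_
    have h22 : 1 + 4 * C ≤ ε * (l - 1) := by
      have h23 : (1 + 4 * C) / ε ≤ l - 1 := by linarith
      rw [div_le_iff₀ hε] at h23
      linarith
    rw [div_add_div _ _ (by positivity) (by positivity), div_le_div_iff₀ (by positivity) (by linarith)]
    have h24 : l ≤ 2 * (l - 1) := by linarith
    -- `(2 C (l-1) + (l-1)^2) l ≤ (1 + ε) (l-1)^3`
    have h25 : 2 * C * l ≤ 4 * C * (l - 1) := by nlinarith
    have h26 : (2 * C + (l - 1)) * l ≤ (1 + ε) * (l - 1) ^ 2 := by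
      have h27 : (l - 1) * l = (l - 1) ^ 2 + (l - 1) := by ring
      have h28 : (1 + 4 * C) * (l - 1) ≤ ε * (l - 1) * (l - 1) :=
        mul_le_mul_of_nonneg_right h22 hd.le
      nlinarith
    have h29 := mul_le_mul_of_nonneg_right h26 hd.le
    nlinarith

end Pool.Agent.D0H52.AB
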